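import Mathlib
import Pool.Agent.H.MP_7aef23_nt.A

set_option autoImplicit false

namespace Pool.Agent.Ha619

open Finset

variable {G : Type*} [AddCommGroup G]

/-- `x` is a sum of `k` members of `S` -/
def Rep (S : Set G) : ℕ → G → Prop
  | 0, x => x = 0
  | k + 1, x => ∃ s ∈ S, Rep S k (x - s)

lemma Rep_mono {S T : Set G} (h : S ⊆ T) : ∀ {k : ℕ} {x : G}, Rep S k x → Rep T k x
  | 0, _, hx => hx
  | _ + 1, _, ⟨s, hs, hx⟩ => ⟨s, h hs, Rep_mono h hx⟩

lemma Rep_neg {S : Set G} (h : ∀ x ∈ S, -x ∈ S) : ∀ {k : ℕ} {x : G}, Rep S k x → Rep S k (-x)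
  | 0, _, hx => neg_eq_zero.mpr hx
  | _ + 1, x, ⟨s, hs, hx⟩ => ⟨-s, h s hs, by convert Rep_neg h hx using 1; abel⟩

lemma Rep_bound (π : G →+ ℤ) {S : Set G} {B : ℤ} (hB : ∀ s ∈ S, |π s| ≤ B) :
    ∀ {k : ℕ} {x : G}, Rep S k x → |π x| ≤ k * B
  | 0, _, hx => by rw [show _ = (0 : G) from hx]; simp
  | k + 1, x, ⟨s, hs, hx⟩ => by
    have h1 := Rep_bound π hB hx
    have h2 := hB s hs
    have h3 := abs_add_le (π (x - s)) (π s)
    rw [← map_add, sub_add_cancel] at h3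
    push_cast; linarith

lemma Rep_sum {S : Set G} (b : ℕ → G) : ∀ k : ℕ, (∀ i < k, b i ∈ S) → Rep S k (∑ i ∈ range k, b i)
  | 0, _ => by simp [Rep]
  | k + 1, h => ⟨b k, h k (by omega), by
      rw [sum_range_succ, add_sub_cancel_right]; exact Rep_sum b k fun i hi => h i (by omega)⟩

lemma fin_bound (π : G →+ ℤ) {S : Set G} (hS : S.Finite) : ∃ B : ℤ, 0 ≤ B ∧ ∀ s ∈ S, |π s| ≤ B := by
  obtain ⟨B, hB⟩ := (hS.image fun s => |π s|).bddAbove
  exact ⟨|B|, abs_nonneg _, fun s hs => (hB ⟨s, hs, rfl⟩).trans (le_abs_self B)⟩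

lemma decomp (S : Set G) (h : ℕ) (b : ℕ → G) : ∀ (k : ℕ) (x : G),
    Rep (S ∪ {y | ∃ i < h, y = b i ∨ y = -b i}) k x → ∃ (c : ℕ → ℤ) (k' : ℕ) (s : G), Rep S k' s ∧
      x = s + ∑ i ∈ range h, c i • b i ∧ k' + ∑ i ∈ range h, |c i| ≤ k
  | 0, x, hx => ⟨0, 0, 0, rfl, by simpa using (show x = 0 from hx), by simp⟩
  | k + 1, x, ⟨y, hy, hx⟩ => by
    obtain ⟨c, k', s, h1, h2, h3⟩ := decomp S h b k _ hx
    rw [sub_eq_iff_eq_add] at h2
    rcases hy with hy | ⟨j, hj, hy⟩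
    · exact ⟨c, k' + 1, s + y, ⟨y, hy, by simpa using h1⟩, by rw [h2]; abel,
        by push_cast; linarith⟩
    · obtain ⟨ε, e1, e2⟩ : ∃ ε : ℤ, |ε| = 1 ∧ y = ε • b j := by
        rcases hy with hy | hy
        · exact ⟨1, by simp, by simpa using hy⟩
        · exact ⟨-1, by simp, by simpa using hy⟩
      refine ⟨fun i => c i + if i = j then ε else 0, k', s, h1, ?_, ?_⟩
      · simp only [add_smul, sum_add_distrib, ite_smul, zero_smul, sum_ite_eq', mem_range, hj,
          if_true]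
        rw [h2, e2]; abel
      · have : ∑ i ∈ range h, |c i + if i = j then ε else 0| ≤
            ∑ i ∈ range h, (|c i| + if i = j then 1 else 0) := sum_le_sum fun i _ => by
          refine (abs_add_le _ _).trans ?_
          split_ifs <;> simp [e1]
        simp only [sum_add_distrib, sum_ite_eq', mem_range, hj, if_true] at this
        push_cast; linarith

lemma exists_g (h : ℕ) (hh : 1 ≤ h) : ∃ g : ℕ → ℤ, ∑ i ∈ range h, g i = 0 ∧ ∀ c : ℕ → ℤ,
      ∑ i ∈ range h, |c i| ≤ h → ∑ i ∈ range h, c i * g i = 0 → ∀ i < h, c i = c 0 := by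
  obtain ⟨G, hG⟩ : ∃ G : ℤ, G = h * h + h + 1 := ⟨_, rfl⟩
  refine ⟨fun i => h * G ^ i - ∑ j ∈ range h, G ^ j, ?_, fun c hc h0 => ?_⟩
  · rw [sum_sub_distrib, ← mul_sum]; simp
  · have hh0 : (0 : ℤ) < h := by exact_mod_cast hh
    have := H7aef.digits_zero G h (fun i => h * c i - ∑ j ∈ range h, c j) (fun i hi => by
      have a1 : |c i| ≤ h :=
        (single_le_sum (fun j _ => abs_nonneg (c j)) (mem_range.mpr hi)).trans hc
      have a2 := (abs_sum_le_sum_abs c (range h)).trans hc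
      have a3 := abs_sub (h * c i) (∑ j ∈ range h, c j)
      rw [abs_mul, abs_of_pos hh0] at a3
      nlinarith) (by
      simp only [mul_sub, sub_mul, sum_sub_distrib, ← sum_mul, ← mul_sum] at h0 ⊢
      rw [← h0]
      congr 1
      exact sum_congr rfl fun i _ => by ring)
    intro i hi
    have a1 := this i hi
    have a2 := this 0 (by omega)
    exact mul_left_cancel₀ hh0.ne' (by linarith)

/-- adding a generic `h`-tuple with sum `n` -/
lemma step (π : G →+ ℤ) (u : G) (hu : π u = 1) (h : ℕ) (hh : 1 ≤ h) (W : Set G) (hWf : W.Finite)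
    (hW : ∀ w ∈ W, -w ∈ W) (S : Set G) (hS : S.Finite) (hSs : ∀ x ∈ S, -x ∈ S)
    (hg : ∀ k ≤ h, ∀ w ∈ W, ¬ Rep S k w) (n : G) :
    ∃ T : Set G, (T.Finite ∧ (∀ x ∈ T, -x ∈ T) ∧ (∀ k ≤ h, ∀ w ∈ W, ¬ Rep T k w)) ∧
      S ⊆ T ∧ (n ∉ W → Rep T h n) := by
  by_cases hn : n ∈ W
  · exact ⟨S, ⟨hS, hSs, hg⟩, le_rfl, fun h => absurd hn h⟩
  obtain ⟨B, hB0, hB⟩ := fin_bound π hS
  obtain ⟨C, hC0, hC⟩ := fin_bound π hWf
  obtain ⟨X, hX⟩ : ∃ X : ℤ, X = h * B + h * |π n| + C + 1 := ⟨_, rfl⟩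
  obtain ⟨g, hg1, hg2⟩ := exists_g h hh
  set b : ℕ → G := fun i => (if i = 0 then n else 0) + (X * g i) • u with hb
  have hbc : ∀ c : ℕ → ℤ, ∑ i ∈ range h, c i • b i =
      c 0 • n + (X * ∑ i ∈ range h, c i * g i) • u := by
    intro c
    simp only [hb, smul_add, sum_add_distrib, smul_ite, smul_zero, sum_ite_eq', mem_range,
      show 0 < h from hh, if_true, smul_smul, mul_sum, sum_smul]
    congr 1
    exact sum_congr rfl fun i _ => by congr 1; ring
  have hbs : ∑ i ∈ range h, b i = n := by simpa [hg1] using hbc fun _ => 1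
  refine ⟨S ∪ {y | ∃ i < h, y = b i ∨ y = -b i}, ⟨?_, ?_, ?_⟩, Set.subset_union_left,
    fun _ => hbs ▸ Rep_sum b h fun i hi => Or.inr ⟨i, hi, Or.inl rfl⟩⟩
  · refine hS.union (((Set.finite_lt_nat h).image b).union
      ((Set.finite_lt_nat h).image fun i => -b i)|>.subset ?_)
    rintro y ⟨i, hi, rfl | rfl⟩
    · exact Or.inl ⟨i, hi, rfl⟩
    · exact Or.inr ⟨i, hi, rfl⟩
  · rintro x (hx | ⟨i, hi, rfl | rfl⟩)
    · exact Or.inl (hSs x hx)
    · exact Or.inr ⟨i, hi, Or.inr rfl⟩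
    · exact Or.inr ⟨i, hi, Or.inl (neg_neg _)⟩
  · intro k hk w hw hr
    obtain ⟨c, k', s, a1, a2, a3⟩ := decomp S h b k w hr
    have hk1 : (k : ℤ) ≤ h := by exact_mod_cast hk
    have hk0 : (0 : ℤ) ≤ k' := by positivity
    have hc0 : 0 ≤ ∑ i ∈ range h, |c i| := sum_nonneg fun i _ => abs_nonneg _
    have hc : ∑ i ∈ range h, |c i| ≤ h := by linarith
    rw [hbc] at a2
    by_cases h0 : ∑ i ∈ range h, c i * g i = 0
    · have hcc := hg2 c hc h0
      have e2 : ∑ i ∈ range h, |c i| = h * |c 0| := by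
        rw [sum_congr rfl (g := fun _ => |c 0|) fun i hi => by rw [hcc i (mem_range.mp hi)]]
        simp
      rw [h0, mul_zero, zero_smul, add_zero] at a2
      rw [e2] at a3
      by_cases hz : c 0 = 0
      · rw [hz] at a2 a3
        simp only [zero_smul, add_zero, abs_zero, mul_zero] at a2 a3
        exact hg k' (by omega) w hw (a2 ▸ a1)
      · have b1 : 1 ≤ |c 0| := Int.one_le_abs hz
        have hh0 : (1 : ℤ) ≤ h := by exact_mod_cast hh
        have b2 : |c 0| = 1 := by nlinarith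
        have b3 : k' = 0 := by rw [b2] at a3; omega
        subst b3
        have b4 : s = 0 := a1
        rcases (abs_eq (by norm_num)).mp b2 with b5 | b5
        · rw [b4, b5] at a2
          exact hn (by simpa [a2] using hw)
        · rw [b4, b5] at a2
          exact hn (by simpa [a2] using hW w hw)
    · have e1 : X * ∑ i ∈ range h, c i * g i = π w - π s - c 0 * π n := by
        rw [a2]; simp [hu]
      have b1 : |π s| ≤ h * B := by
        have := Rep_bound π hB a1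
        nlinarith
      have b2 : |c 0 * π n| ≤ h * |π n| := by
        rw [abs_mul]
        exact mul_le_mul_of_nonneg_right ((single_le_sum (fun j _ => abs_nonneg (c j))
          (mem_range.mpr (show 0 < h from hh))).trans hc) (abs_nonneg _)
      have b3 := hC w hw
      have b4 : 1 ≤ |∑ i ∈ range h, c i * g i| := Int.one_le_abs h0
      have b5 := abs_sub (π w - π s) (c 0 * π n)
      have b6 := abs_sub (π w) (π s)
      have hX0 : 0 < X := by
        have := abs_nonneg (π s)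
        have := abs_nonneg (c 0 * π n)
        linarith
      rw [← e1, abs_mul, abs_of_pos hX0] at b5
      have b7 : X ≤ X * |∑ i ∈ range h, c i * g i| := le_mul_of_one_le_right hX0.le b4
      linarith

/-- an infinite symmetric set whose sums of at most `h` members miss `W` and whose sums of `h`
members cover the rest -/
lemma exists_set [Countable G] (π : G →+ ℤ) (u : G) (hu : π u = 1) (h : ℕ) (hh : 1 ≤ h)
    (W : Set G) (hWf : W.Finite) (hW0 : 0 ∉ W) (hW : ∀ w ∈ W, -w ∈ W) :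
    ∃ T : Set G, T.Infinite ∧ (∀ x ∈ T, -x ∈ T) ∧ (∀ k ≤ h, ∀ w ∈ W, ¬ Rep T k w) ∧
      (∀ n ∉ W, Rep T h n) ∧ ∀ w ∈ W, Rep T (h + 1) w := by
  have st := fun (S : {S : Set G // S.Finite ∧ (∀ x ∈ S, -x ∈ S) ∧
      (∀ k ≤ h, ∀ w ∈ W, ¬ Rep S k w)}) (n : G) =>
    step π u hu h hh W hWf hW S.1 S.2.1 S.2.2.1 S.2.2.2 n
  choose F hF using st
  obtain ⟨e, he⟩ := exists_surjective_nat G
  let f : ℕ → {S : Set G // S.Finite ∧ (∀ x ∈ S, -x ∈ S) ∧
      (∀ k ≤ h, ∀ w ∈ W, ¬ Rep S k w)} := fun k => Nat.rec ⟨∅, by simp, by simp, by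
        intro k _ w hw hr
        cases k with
        | zero => exact hW0 ((show w = 0 from hr) ▸ hw)
        | succ k => obtain ⟨s, hs, -⟩ := hr; exact hs⟩
      (fun k S => ⟨F S (e k), (hF S (e k)).1⟩) k
  have hmono : Monotone fun k => (f k).1 :=
    monotone_nat_of_le_succ fun k => (hF (f k) (e k)).2.1
  have hcov : ∀ n ∉ W, Rep (⋃ k, (f k).1) h n := by
    intro n hn
    obtain ⟨k, rfl⟩ := he n
    exact Rep_mono (fun x hx => Set.mem_iUnion.mpr ⟨k + 1, hx⟩) ((hF (f k) (e k)).2.2 hn)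
  have hinf : (⋃ k, (f k).1).Infinite := by
    intro hT
    obtain ⟨B, hB0, hB⟩ := fin_bound π hT
    obtain ⟨C, hC0, hC⟩ := fin_bound π hWf
    have h0 : 0 ≤ h * B := by positivity
    have e1 : |π ((h * B + C + 1) • u)| = h * B + C + 1 := by
      rw [map_zsmul, hu, smul_eq_mul, mul_one, abs_of_pos (by linarith)]
    have := Rep_bound π hB (hcov ((h * B + C + 1) • u) fun hc => by
      have := hC _ hc
      linarith)
    linarith
  refine ⟨⋃ k, (f k).1, hinf, ?_, ?_, hcov, ?_⟩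
  · intro x hx
    obtain ⟨k, hk⟩ := Set.mem_iUnion.mp hx
    exact Set.mem_iUnion.mpr ⟨k, (f k).2.2.1 x hk⟩
  · have key : ∀ (k : ℕ) (x : G), Rep (⋃ k, (f k).1) k x → ∃ j, Rep (f j).1 k x := by
      intro k
      induction k with
      | zero => intro x hx; exact ⟨0, hx⟩
      | succ k ih =>
        rintro x ⟨s, hs, hx⟩
        obtain ⟨j, hj⟩ := Set.mem_iUnion.mp hs
        obtain ⟨i, hi⟩ := ih _ hx
        exact ⟨max i j, s, hmono (le_max_right i j) hj, Rep_mono (hmono (le_max_left i j)) hi⟩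
    intro k hk w hw hr
    obtain ⟨j, hj⟩ := key k w hr
    exact (f j).2.2.2 k hk w hw hj
  · intro w _
    obtain ⟨a, ha, ha'⟩ := hinf.exists_notMem_finite (hWf.image fun v => w - v)
    exact ⟨a, ha, hcov _ fun hc => ha' ⟨_, hc, by simp⟩⟩

end Pool.Agent.Ha619
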